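import Mathlib
import Pool.Agent.W691.Ran.Defs

/-! RN-AVG: averaging over a finite prior. -/

set_option autoImplicit false

namespace Pool.Agent.W991.RN

open MeasureTheory Pool.Agent.Helper150.Iid Pool.Agent.W691.Ran
open scoped ENNReal

theorem exists_maj {Ω : Type} [MeasurableSpace Ω] (μ : Measure Ω) (F : Ω → ℝ≥0∞) (E : ℝ≥0∞)
    (h : upperInt μ F < E) : ∃ g : Ω → ℝ≥0∞, Measurable g ∧ F ≤ g ∧ ∫⁻ ω, g ω ∂μ < E := by
  unfold upperInt at h
  simp only [iInf_lt_iff] at h
  obtain ⟨g, h1, h2, h3⟩ := h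
  exact ⟨g, h1, h2, h3⟩

theorem int_cont {f : Tor 2 → ℝ} (hf : Continuous f) :
    Integrable f (volume : Measure (Tor 2)) :=
  hf.integrable_of_hasCompactSupport (HasCompactSupport.of_compactSpace _)

theorem avg (hT : S_TENT) : S_AVG := by
  intro n k I _ _ F L hL hF hball B hB Bad hBad hw
  unfold ranIid
  refine le_iInf fun A => le_iInf fun hA => ?_
  letI := A.mΩ
  haveI := A.prob
  obtain ⟨p, hp0, hp1, hp⟩ := hT I L hL
  by_contra hlt
  rw [not_le] at hlt
  obtain ⟨E, hE1, hE2⟩ := exists_between hlt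
  have hLr : (0 : ℝ) < L := by exact_mod_cast hL
  -- the functions
  obtain ⟨f, hf⟩ : ∃ f : (I → ℤ) → Tor 2 → ℝ, f = fun x t => ∑ q, ((x q : ℝ) / L) * F q t :=
    ⟨_, rfl⟩
  have hfc : ∀ x, Continuous (f x) := by
    intro x
    rw [hf]
    exact continuous_finsetSum _ fun q _ => continuous_const.mul (hF q)
  have hfball : ∀ x ∈ box I L, f x ∈ ball 2 k := by
    intro x hx
    rw [hf]
    refine hball (fun q => (x q : ℝ) / L) fun q => ?_
    unfold box at hx
    rw [Fintype.mem_piFinset] at hx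
    have h1 := Finset.mem_Icc.1 (hx q)
    have h2 : (-(L : ℝ)) ≤ (x q : ℝ) := by exact_mod_cast h1.1
    have h3 : (x q : ℝ) ≤ (L : ℝ) := by exact_mod_cast h1.2
    rw [abs_le]
    constructor
    · rw [le_div_iff₀ hLr]; linarith
    · rw [div_le_iff₀ hLr]; linarith
  have hg : ∀ x ∈ box I L, ∃ g : A.Ω → ℝ≥0∞, Measurable g ∧
      (fun o => ENNReal.ofReal |(∫ t, f x t) - A.φ o (fun i => f x (A.P o i))|) ≤ g ∧
      ∫⁻ ω, g ω ∂A.μ < E := by
    intro x hx
    refine exists_maj _ _ _ (lt_of_le_of_lt ?_ hE1)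
    unfold errRan
    exact le_iSup₂ (f := fun (f : Tor 2 → ℝ) (_ : f ∈ ball 2 k) => upperInt A.μ
      (fun o => ENNReal.ofReal |(∫ x, f x) - A.φ o (fun i => f (A.P o i))|)) (f x) (hfball x hx)
  choose! g hgm hgl hgi using hg
  -- the average
  obtain ⟨G, hG⟩ : ∃ G : A.Ω → ℝ≥0∞, G = fun o => ∑ x ∈ box I L, ENNReal.ofReal (p x) * g x o :=
    ⟨_, rfl⟩
  have hGm : Measurable G := by
    rw [hG]
    exact Finset.measurable_fun_sum _ fun x hx => (hgm x hx).const_mul _
  have hGi : ∫⁻ o, G o ∂A.μ ≤ E := by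
    rw [hG, lintegral_finsetSum' _ fun x hx => ((hgm x hx).const_mul _).aemeasurable]
    calc ∑ x ∈ box I L, ∫⁻ o, ENNReal.ofReal (p x) * g x o ∂A.μ
        ≤ ∑ x ∈ box I L, ENNReal.ofReal (p x) * E := by
          refine Finset.sum_le_sum fun x hx => ?_
          rw [lintegral_const_mul _ (hgm x hx)]
          gcongr
          exact (hgi x hx).le
      _ = E := by
          rw [← Finset.sum_mul, ← ENNReal.ofReal_sum_of_nonneg (fun x _ => hp0 x), hp1]
          simp
  have key : ∀ o, A.P o ∉ Bad → ENNReal.ofReal B ≤ 16 * G o := by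
    intro o ho
    obtain ⟨τ, h1, h2, h3⟩ := hw _ ho
    refine le_trans (hp τ h1 (fun x => ENNReal.ofReal
      |(∫ t, f x t) - A.φ o (fun i => f x (A.P o i))|) (ENNReal.ofReal B) ?_) ?_
    · intro x
      have h4 : ∀ t, f (x + τ) t = f x t + ∑ q, ((τ q : ℝ) / L) * F q t := by
        intro t
        rw [hf]
        simp only [Pi.add_apply]
        rw [← Finset.sum_add_distrib]
        refine Finset.sum_congr rfl fun q _ => ?_
        push_cast
        ring
      have h5 : (fun i => f (x + τ) (A.P o i)) = fun i => f x (A.P o i) := by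
        funext i
        rw [h4, h2 i, add_zero]
      have h6 : ∫ t, f (x + τ) t = (∫ t, f x t) + ∫ t, ∑ q, ((τ q : ℝ) / L) * F q t := by
        have hci : Continuous (fun t => ∑ q, ((τ q : ℝ) / L) * F q t) :=
          continuous_finsetSum _ fun q _ => continuous_const.mul (hF q)
        rw [← integral_add (int_cont (hfc x)) (int_cont hci)]
        exact integral_congr_ae (ae_of_all _ h4)
      simp only [h5]
      rw [← ENNReal.ofReal_add (abs_nonneg _) (abs_nonneg _)]
      refine ENNReal.ofReal_le_ofReal ?_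
      have h7 := neg_abs_le ((∫ t, f x t) - A.φ o (fun i => f x (A.P o i)))
      have h8 := le_abs_self ((∫ t, f (x + τ) t) - A.φ o (fun i => f x (A.P o i)))
      have h9 := le_abs_self ((∫ t, f x t) - A.φ o (fun i => f x (A.P o i)))
      linarith
    · gcongr
      rw [hG]
      refine Finset.sum_le_sum fun x hx => ?_
      gcongr
      exact hgl x hx o
  -- the final estimate
  obtain ⟨ν, hν⟩ : ∃ ν : Measure (Fin n → Tor 2), ν = Measure.pi (fun _ => volume) := ⟨_, rfl⟩
  have hlaw : A.μ.map A.P = ν := by rw [hν]; exact hA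
  haveI : IsProbabilityMeasure ν := by
    rw [← hlaw]; exact Measure.isProbabilityMeasure_map A.measP.aemeasurable
  rw [← hν] at hBad
  obtain ⟨H, hH⟩ : ∃ H : Set (Fin n → Tor 2), H = toMeasurable ν Bad := ⟨_, rfl⟩
  have hHm : MeasurableSet H := by rw [hH]; exact measurableSet_toMeasurable _ _
  have hHle : ν H ≤ 3 / 4 := by rw [hH, measure_toMeasurable]; exact hBad
  have hsub : Bad ⊆ H := by rw [hH]; exact subset_toMeasurable _ _
  have hcompl : (1 / 4 : ℝ≥0∞) ≤ ν Hᶜ := by
    rw [prob_compl_eq_one_sub hHm]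
    have : (1 : ℝ≥0∞) - 3 / 4 ≤ 1 - ν H := tsub_le_tsub_left hHle 1
    refine le_trans (le_of_eq ?_) this
    refine ENNReal.eq_sub_of_add_eq (by
      exact ENNReal.div_ne_top (by norm_num) (by norm_num)) ?_
    rw [← ENNReal.add_div]
    norm_num
    rw [ENNReal.div_self (by norm_num) (by norm_num)]
  have hpre : A.μ (A.P ⁻¹' Hᶜ) = ν Hᶜ := by
    rw [← hlaw, Measure.map_apply A.measP hHm.compl]
  have h10 : ENNReal.ofReal B * (1 / 4) ≤ 16 * E := by
    calc ENNReal.ofReal B * (1 / 4) ≤ ENNReal.ofReal B * A.μ (A.P ⁻¹' Hᶜ) := by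
          rw [hpre]
          gcongr
      _ = ∫⁻ ω in A.P ⁻¹' Hᶜ, ENNReal.ofReal B ∂A.μ := by
          rw [setLIntegral_const]
      _ ≤ ∫⁻ ω in A.P ⁻¹' Hᶜ, 16 * G ω ∂A.μ := by
          refine setLIntegral_mono (hGm.const_mul _) fun ω hω => ?_
          exact key ω fun h => hω (hsub h)
      _ ≤ ∫⁻ ω, 16 * G ω ∂A.μ := setLIntegral_le_lintegral _ _
      _ = 16 * ∫⁻ ω, G ω ∂A.μ := lintegral_const_mul _ hGm
      _ ≤ 16 * E := by gcongr
  have hEtop : E ≠ ⊤ := ne_top_of_lt hE2
  have h11 := ENNReal.toReal_mono (ENNReal.mul_ne_top (by norm_num) hEtop) h10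
  rw [ENNReal.toReal_mul, ENNReal.toReal_mul, ENNReal.toReal_ofReal hB] at h11
  have h12 : E.toReal < B / 64 := by
    have := (ENNReal.toReal_lt_toReal hEtop ENNReal.ofReal_ne_top).2 hE2
    rwa [ENNReal.toReal_ofReal (by positivity)] at this
  norm_num at h11
  linarith

end Pool.Agent.W991.RN
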