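import Mathlib
import Pool.Agent.W691.Ran.Defs

/-! RN-UA: randomly shifted rules. -/

set_option autoImplicit false

namespace Pool.Agent.W991.RN

open MeasureTheory Pool.Agent.Helper150.Iid Pool.Agent.W691.Ran
open scoped ENNReal

noncomputable section

/-- the algorithm -/
def ualg {n : ℕ} (Ω' : Type) [Fintype Ω'] [Nonempty Ω'] (z : Ω' → Fin n → Tor 2) :
    RandAlg 2 n where
  Ω := Ω' × Tor 2
  mΩ := @Prod.instMeasurableSpace _ _ ⊤ _
  μ := @Measure.prod _ _ ⊤ _ ((Fintype.card Ω' : ℝ≥0∞)⁻¹ • @Measure.count _ ⊤) volume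
  prob := by
    let _ : MeasurableSpace Ω' := ⊤
    have h1 : IsProbabilityMeasure
        ((Fintype.card Ω' : ℝ≥0∞)⁻¹ • (Measure.count : Measure Ω')) := by
      refine ⟨?_⟩
      rw [Measure.smul_apply, Measure.count_univ, smul_eq_mul]
      rw [ENat.card_eq_coe_fintype_card]
      refine ENNReal.inv_mul_cancel ?_ ?_
      · simp
      · simp
    have h2 : IsProbabilityMeasure (volume : Measure (Tor 2)) := by
      rw [vol_eq]; infer_instance
    infer_instance
  P := fun ω i => z ω.1 i + ω.2
  measP := by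
    let _ : MeasurableSpace Ω' := ⊤
    refine measurable_from_prod_countable_right fun o => ?_
    refine measurable_pi_lambda _ fun i => ?_
    have h : Continuous (fun y : Tor 2 => z o i + y) := continuous_const.add continuous_id
    exact h.measurable
  φ := fun _ v => (1 / (n : ℝ)) * ∑ i : Fin n, v i

theorem vol_prob : IsProbabilityMeasure (volume : Measure (Tor 2)) := by
  rw [vol_eq]; infer_instance

theorem upperInt_le {Ω : Type} [MeasurableSpace Ω] (μ : Measure Ω) (F : Ω → ℝ≥0∞)
    (hF : Measurable F) : upperInt μ F ≤ ∫⁻ o, F o ∂μ := by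
  unfold upperInt
  exact iInf₂_le_of_le F hF (iInf_le_of_le le_rfl le_rfl)

theorem intC {f : Tor 2 → ℂ} (hf : Continuous f) : Integrable f (volume : Measure (Tor 2)) :=
  hf.integrable_of_hasCompactSupport (HasCompactSupport.of_compactSpace _)

theorem intR {f : Tor 2 → ℝ} (hf : Continuous f) : Integrable f (volume : Measure (Tor 2)) :=
  hf.integrable_of_hasCompactSupport (HasCompactSupport.of_compactSpace _)

theorem ex_cont (h : Fin 2 → ℤ) :
    Continuous (fun x : Tor 2 => ∏ j, (fourier (-h j) (x j) : ℂ)) := by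
  refine continuous_finsetProd _ fun j _ => ?_
  exact (fourier (-h j)).continuous.comp (continuous_apply j)

theorem fourier_add_arg (n : ℤ) (x y : UnitAddCircle) :
    (fourier n (x + y) : ℂ) = fourier n x * fourier n y := by
  rw [fourier_apply, fourier_apply, fourier_apply, smul_add, AddCircle.toCircle_add]
  simp

/-- Fourier coefficients of a translate. -/
theorem fc_shift (f : Tor 2 → ℝ) (a : Tor 2) (h : Fin 2 → ℤ) :
    fc (fun t => f (a + t)) h = (∏ j, (fourier (h j) (a j) : ℂ)) * fc f h := by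
  unfold fc
  have e : ∀ t : Tor 2, (∏ j, (fourier (-h j) (t j) : ℂ)) * (f (a + t) : ℂ) =
      (fun s : Tor 2 => (∏ j, (fourier (h j) (a j) : ℂ)) *
        ((∏ j, (fourier (-h j) (s j) : ℂ)) * (f s : ℂ))) (a + t) := by
    intro t
    simp only
    rw [← mul_assoc, ← Finset.prod_mul_distrib]
    congr 1
    refine Finset.prod_congr rfl fun j _ => ?_
    rw [Pi.add_apply, fourier_add_arg, ← mul_assoc, ← fourier_add]
    simp
  calc (∫ t : Tor 2, (∏ j, (fourier (-h j) (t j) : ℂ)) * (f (a + t) : ℂ))
      = ∫ t : Tor 2, (fun s : Tor 2 => (∏ j, (fourier (h j) (a j) : ℂ)) *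
        ((∏ j, (fourier (-h j) (s j) : ℂ)) * (f s : ℂ))) (a + t) :=
        integral_congr_ae (ae_of_all _ e)
    _ = ∫ s : Tor 2, (∏ j, (fourier (h j) (a j) : ℂ)) *
        ((∏ j, (fourier (-h j) (s j) : ℂ)) * (f s : ℂ)) :=
        integral_add_left_eq_self (μ := (volume : Measure (Tor 2)))
          (fun s : Tor 2 => (∏ j, (fourier (h j) (a j) : ℂ)) *
        ((∏ j, (fourier (-h j) (s j) : ℂ)) * (f s : ℂ))) a
    _ = _ := integral_const_mul _ _

theorem fc_lin (f g : Tor 2 → ℝ) (hf : Continuous f) (hg : Continuous g) (c : ℝ)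
    (h : Fin 2 → ℤ) :
    fc (fun x => f x - c * g x) h = fc f h - c * fc g h := by
  unfold fc
  rw [← integral_const_mul, ← integral_sub]
  · refine integral_congr_ae (ae_of_all _ fun x => ?_)
    simp only
    push_cast
    ring
  · exact intC ((ex_cont h).mul (Complex.continuous_ofReal.comp hf))
  · exact (intC ((ex_cont h).mul (Complex.continuous_ofReal.comp hg))).const_mul _

theorem fc_sum {ι : Type} (s : Finset ι) (g : ι → Tor 2 → ℝ) (hg : ∀ i, Continuous (g i))
    (h : Fin 2 → ℤ) :
    fc (fun x => ∑ i ∈ s, g i x) h = ∑ i ∈ s, fc (g i) h := by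
  unfold fc
  rw [← integral_finsetSum]
  · refine integral_congr_ae (ae_of_all _ fun x => ?_)
    simp only
    push_cast
    rw [Finset.mul_sum]
  · exact fun i _ => intC ((ex_cont h).mul (Complex.continuous_ofReal.comp (hg i)))

theorem fc_z (f : Tor 2 → ℝ) : fc f 0 = ((∫ x, f x : ℝ) : ℂ) := by
  unfold fc
  simp only [Pi.zero_apply, neg_zero, fourier_zero, Finset.prod_const_one, one_mul]
  exact integral_ofReal

theorem fc_const (c : ℝ) (h : Fin 2 → ℤ) (hh : h ≠ 0) : fc (fun _ : Tor 2 => c) h = 0 := by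
  -- some `a` with `∏ fourier (h j) (a j) ≠ 1`
  by_contra hne
  have h1 : ∀ a : Tor 2, (∏ j, (fourier (h j) (a j) : ℂ)) = 1 := by
    intro a
    have h2 := fc_shift (fun _ : Tor 2 => c) a h
    simp only at h2
    have h3 : (1 - (∏ j, (fourier (h j) (a j) : ℂ))) * fc (fun _ : Tor 2 => c) h = 0 := by
      rw [sub_mul, one_mul, ← h2, sub_self]
    rcases mul_eq_zero.1 h3 with h4 | h4
    · exact (sub_eq_zero.1 h4).symm
    · exact absurd h4 hne
  obtain ⟨j0, hj0⟩ : ∃ j, h j ≠ 0 := by
    by_contra hcon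
    push Not at hcon
    exact hh (funext hcon)
  have h5 := h1 (fun j => if j = j0 then (((1 / (2 * h j0) : ℝ)) : UnitAddCircle) else 0)
  rw [Finset.prod_eq_single j0] at h5
  · simp only [if_true] at h5
    rw [fourier_coe_apply] at h5
    have h6 : Complex.exp (Real.pi * Complex.I) = 1 := by
      rw [← h5]
      congr 1
      have : (h j0 : ℂ) ≠ 0 := by exact_mod_cast hj0
      push_cast
      field_simp
    rw [Complex.exp_pi_mul_I] at h6
    norm_num at h6
  · intro j _ hj
    simp only [if_neg hj]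
    exact fourier_eval_zero _
  · simp

theorem ua : S_UA := by
  intro k hk n hn Ω' _ _ z V hV hz
  unfold ranOpt
  refine iInf_le_of_le (ualg Ω' z) ?_
  unfold errRan
  refine iSup₂_le fun f hf => ?_
  haveI := vol_prob
  obtain ⟨N, hN⟩ : ∃ N : ℝ, N = (Fintype.card Ω' : ℝ) := ⟨_, rfl⟩
  have hN0 : 0 < N := by rw [hN]; exact_mod_cast Fintype.card_pos
  have hn0 : (0 : ℝ) < n := by exact_mod_cast hn
  -- the error function
  obtain ⟨g, hg⟩ : ∃ g : Ω' → Tor 2 → ℝ, g = fun o t =>
    (∫ x, f x) - (1 / (n : ℝ)) * ∑ i : Fin n, f (z o i + t) := ⟨_, rfl⟩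
  have hsc : ∀ o, Continuous (fun t => ∑ i : Fin n, f (z o i + t)) := fun o =>
    continuous_finsetSum _ fun i _ => hf.1.comp (continuous_const.add continuous_id)
  have hgc : ∀ o, Continuous (g o) := by
    intro o
    rw [hg]
    exact continuous_const.sub (continuous_const.mul (hsc o))
  -- Fourier coefficients
  have hfc : ∀ o h, fc (g o) h = (if h = 0 then 0 else
      - ((1 / (n : ℝ) : ℝ) : ℂ) * (∑ i : Fin n, ∏ j, (fourier (h j) (z o i j) : ℂ)) * fc f h) := by
    intro o h
    have e1 : fc (g o) h = fc (fun _ : Tor 2 => ∫ x, f x) h - ((1 / (n : ℝ) : ℝ) : ℂ) *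
        ((∑ i : Fin n, ∏ j, (fourier (h j) (z o i j) : ℂ)) * fc f h) := by
      rw [hg]
      simp only
      have e2 := fc_sum Finset.univ (fun (i : Fin n) (t : Tor 2) => f (z o i + t)) (fun i =>
        hf.1.comp (continuous_const.add continuous_id)) h
      rw [fc_lin _ _ continuous_const (hsc o), e2, Finset.sum_mul]
      congr 2
      exact Finset.sum_congr rfl fun i _ => fc_shift f (z o i) h
    rw [e1]
    split_ifs with h0
    · subst h0
      rw [fc_z, fc_z]
      simp only [Pi.zero_apply, fourier_zero, Finset.prod_const_one, Finset.sum_const,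
        Finset.card_univ, Fintype.card_fin, integral_const, probReal_univ]
      have : (n : ℂ) ≠ 0 := by exact_mod_cast hn0.ne'
      simp
      field_simp
      ring
    · rw [fc_const _ _ h0]
      ring
  -- Parseval
  have hpar : ∑ o, ∫ t, (g o t) ^ 2 ≤ N * V := by
    have p1 : HasSum (fun h : Fin 2 → ℤ => ∑ o, ‖fc (g o) h‖ ^ 2) (∑ o, ∫ t, (g o t) ^ 2) :=
      hasSum_sum fun o _ => parseval (g o) (hgc o)
    have p2 : HasSum (fun h => (N * V) * (‖fc f h‖ ^ 2 * wt k h))
      ((N * V) * ∑' h, ‖fc f h‖ ^ 2 * wt k h) := hf.2.1.hasSum.mul_left _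
    have hwt : ∀ h : Fin 2 → ℤ, 0 ≤ wt k h := by
      intro h
      unfold wt
      exact Finset.prod_nonneg fun j _ => Real.rpow_nonneg (by positivity) _
    have p3 := hasSum_le (fun h => ?_) p1 p2
    · refine p3.trans ?_
      have := mul_le_mul_of_nonneg_left hf.2.2 (by positivity : 0 ≤ N * V)
      linarith
    · simp only [hfc]
      by_cases h0 : h = 0
      · simp only [if_pos h0]
        simp
        have := hwt h
        positivity
      · simp only [if_neg h0]
        have h1 := hz h h0
        have h2 : ∀ o, ‖-((1 / (n : ℝ) : ℝ) : ℂ) *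
            (∑ i : Fin n, ∏ j, (fourier (h j) (z o i j) : ℂ)) * fc f h‖ ^ 2 =
            (1 / (n : ℝ)) ^ 2 * ‖fc f h‖ ^ 2 *
              ‖∑ i : Fin n, ∏ j, (fourier (h j) (z o i j) : ℂ)‖ ^ 2 := by
          intro o
          rw [norm_mul, norm_mul, norm_neg, Complex.norm_real, Real.norm_of_nonneg (by positivity)]
          ring
        simp only [h2]
        rw [← Finset.mul_sum]
        calc (1 / (n : ℝ)) ^ 2 * ‖fc f h‖ ^ 2 *
              ∑ o, ‖∑ i : Fin n, ∏ j, (fourier (h j) (z o i j) : ℂ)‖ ^ 2
            ≤ (1 / (n : ℝ)) ^ 2 * ‖fc f h‖ ^ 2 *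
              ((Fintype.card Ω' : ℝ) * (n : ℝ) ^ 2 * V * wt k h) := by
              gcongr
          _ = (N * V) * (‖fc f h‖ ^ 2 * wt k h) := by
              rw [hN]
              field_simp
  -- absolute values
  have habs : ∑ o, ∫ t, |g o t| ≤ N * Real.sqrt V := by
    have h1 : ∀ s : ℝ, 0 < s → ∑ o, ∫ t, |g o t| ≤ N * ((V / s + s) / 2) := by
      intro s hs
      have h2 : ∀ o, ∫ t, |g o t| ≤ (∫ t, (g o t) ^ 2) * (1 / (2 * s)) + s / 2 := by
        intro o
        calc ∫ t, |g o t| ≤ ∫ t, ((g o t) ^ 2 * (1 / (2 * s)) + s / 2) := by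
              refine integral_mono (intR (hgc o).abs)
                (((intR ((hgc o).pow 2)).mul_const _).add (integrable_const _)) fun t => ?_
              simp only
              rw [mul_one_div, div_add_div _ _ (by positivity) (by norm_num),
                le_div_iff₀ (by positivity)]
              have h3 := sq_nonneg (|g o t| - s)
              have h4 := sq_abs (g o t)
              nlinarith
          _ = _ := by
              have hq : Integrable (fun t => (g o t) ^ 2 * (1 / (2 * s)))
                  (volume : Measure (Tor 2)) := (intR ((hgc o).pow 2)).mul_const _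
              rw [integral_add hq (integrable_const _),
                integral_mul_const, integral_const]
              simp
      calc ∑ o, ∫ t, |g o t| ≤ ∑ o, ((∫ t, (g o t) ^ 2) * (1 / (2 * s)) + s / 2) :=
            Finset.sum_le_sum fun o _ => h2 o
        _ = (∑ o, ∫ t, (g o t) ^ 2) * (1 / (2 * s)) + N * (s / 2) := by
            rw [Finset.sum_add_distrib, ← Finset.sum_mul, Finset.sum_const, Finset.card_univ,
              nsmul_eq_mul, hN]
        _ ≤ (N * V) * (1 / (2 * s)) + N * (s / 2) := by gcongr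
        _ = N * ((V / s + s) / 2) := by field_simp
    rcases hV.eq_or_lt with h0 | h0
    · rw [← h0, Real.sqrt_zero, mul_zero]
      refine le_of_forall_pos_le_add fun ε hε => ?_
      have := h1 (2 * ε / N) (by positivity)
      rw [← h0, zero_div, zero_add] at this
      rw [zero_add]
      refine this.trans (le_of_eq ?_)
      field_simp
    · have hs := Real.sqrt_pos.2 h0
      refine (h1 _ hs).trans (le_of_eq ?_)
      have h2 : V / Real.sqrt V = Real.sqrt V := Real.div_sqrt
      rw [h2]
      ring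
  -- measure theory
  let _ : MeasurableSpace Ω' := ⊤
  have hmeas : Measurable (fun ω : Ω' × Tor 2 => ENNReal.ofReal |g ω.1 ω.2|) := by
    refine measurable_from_prod_countable_right fun o => ?_
    exact ENNReal.measurable_ofReal.comp (hgc o).abs.measurable
  refine (upperInt_le (Ω := Ω' × Tor 2) (ualg Ω' z).μ _ ?_).trans ?_
  · rw [hg] at hmeas
    exact hmeas
  · have h1 : ∫⁻ ω : Ω' × Tor 2, ENNReal.ofReal |g ω.1 ω.2|
        ∂(((Fintype.card Ω' : ℝ≥0∞)⁻¹ • (Measure.count : Measure Ω')).prod volume) ≤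
        ENNReal.ofReal (Real.sqrt V) := by
      rw [lintegral_prod _ hmeas.aemeasurable, lintegral_smul_measure, lintegral_count,
        tsum_fintype]
      have h2 : ∀ o, ∫⁻ t, ENNReal.ofReal |g o t| = ENNReal.ofReal (∫ t, |g o t|) := fun o =>
        (ofReal_integral_eq_lintegral_ofReal (intR (hgc o).abs)
          (ae_of_all _ fun t => abs_nonneg _)).symm
      simp only [h2]
      rw [← ENNReal.ofReal_sum_of_nonneg fun o _ => integral_nonneg fun t => abs_nonneg _]
      rw [smul_eq_mul]
      have h3 : ((Fintype.card Ω' : ℝ≥0∞))⁻¹ = ENNReal.ofReal (N⁻¹) := by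
        rw [ENNReal.ofReal_inv_of_pos hN0, hN, ENNReal.ofReal_natCast]
      rw [h3, ← ENNReal.ofReal_mul (by positivity)]
      refine ENNReal.ofReal_le_ofReal ?_
      rw [inv_mul_le_iff₀ hN0]
      exact habs
    rw [hg] at h1
    exact h1

end

end Pool.Agent.W991.RN
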